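import Mathlib
import Pool.Agent.V11117.Spec

namespace Pool.Agent.Results.MP_4bb7d7_co.GoldenMultiplicity

open Finset Matrix Polynomial Pool.Agent.V11117

/-- The (geometric) multiplicity of the real number `t` as an eigenvalue of the adjacency
matrix of `G`: the dimension of the kernel of `A - t I`. -/
noncomputable def mult {n : ℕ} (G : SimpleGraph (Fin n)) (t : ℝ) : ℕ := by
  classical
  exact Module.finrank ℝ (LinearMap.ker (Matrix.toLin' (G.adjMatrix ℝ - t • 1)))

/-- `E_s(n, t)`: the maximum multiplicity of `t` as an eigenvalue of a graph on `n` vertices. -/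
noncomputable def Es (n : ℕ) (t : ℝ) : ℕ := sSup {m : ℕ | ∃ G : SimpleGraph (Fin n), mult G t = m}

section rootmult

/-- the minimal polynomial of the golden ratio over `ℚ` -/
noncomputable def pq : ℚ[X] := X ^ 2 - X - 1

lemma pq_natDegree : pq.natDegree = 2 := by
  unfold pq
  compute_degree!

lemma pq_monic : pq.Monic := by
  unfold pq
  monicity!

lemma pq_irr : Irreducible pq := by
  apply Polynomial.irreducible_of_degree_le_three_of_not_isRoot
  · rw [pq_natDegree]; simp
  · intro x hx
    have h : x ^ 2 - x - 1 = 0 := by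
      have := hx
      simpa [pq, Polynomial.IsRoot] using this
    have h5 : (2 * x - 1) ^ 2 = 5 := by linarith
    have hirr : Irrational (√5) := by
      have := Nat.Prime.irrational_sqrt (show Nat.Prime 5 by norm_num)
      exact_mod_cast this
    apply hirr
    rcases abs_cases (2 * x - 1) with hc | hc
    · refine ⟨2 * x - 1, ?_⟩
      rw [eq_comm, Real.sqrt_eq_iff_mul_self_eq (by norm_num) (by exact_mod_cast (hc.1 ▸ abs_nonneg _))]
      have : ((2 * x - 1 : ℚ) : ℝ) * ((2 * x - 1 : ℚ) : ℝ) = (((2 * x - 1) ^ 2 : ℚ) : ℝ) := by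
        push_cast; ring
      rw [this, h5]; norm_num
    · refine ⟨-(2 * x - 1), ?_⟩
      rw [eq_comm, Real.sqrt_eq_iff_mul_self_eq (by norm_num) (by exact_mod_cast (hc.1 ▸ abs_nonneg _))]
      have : ((-(2 * x - 1) : ℚ) : ℝ) * ((-(2 * x - 1) : ℚ) : ℝ) = (((2 * x - 1) ^ 2 : ℚ) : ℝ) := by
        push_cast; ring
      rw [this, h5]; norm_num

lemma pq_map : pq.map (algebraMap ℚ ℝ) = (X - C Real.goldenRatio) * (X - C Real.goldenConj) := by
  have h1 : (C Real.goldenRatio + C Real.goldenConj : ℝ[X]) = 1 := by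
    rw [← C_add, Real.goldenRatio_add_goldenConj, C_1]
  have h2 : (C Real.goldenRatio * C Real.goldenConj : ℝ[X]) = -1 := by
    rw [← C_mul, Real.goldenRatio_mul_goldenConj, C_neg, C_1]
  have h3 : pq.map (algebraMap ℚ ℝ) = X ^ 2 - X - 1 := by
    unfold pq
    simp
  rw [h3]
  linear_combination (X : ℝ[X]) * h1 - h2

lemma minpoly_of_root {α : ℝ} (hα : (pq.map (algebraMap ℚ ℝ)).eval α = 0) : pq = minpoly ℚ α := by
  apply minpoly.eq_of_irreducible_of_monic pq_irr _ pq_monic
  rw [Polynomial.eval_map_algebraMap] at hα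
  exact hα

lemma rootMult_eq (f : ℚ[X]) (hf : f ≠ 0) :
    (f.map (algebraMap ℚ ℝ)).rootMultiplicity Real.goldenRatio
      = (f.map (algebraMap ℚ ℝ)).rootMultiplicity Real.goldenConj := by
  have hfin : FiniteMultiplicity pq f :=
    Polynomial.finiteMultiplicity_of_degree_pos_of_monic (by
      rw [Polynomial.degree_eq_natDegree pq_monic.ne_zero, pq_natDegree]; norm_num) pq_monic hf
  obtain ⟨q, hq, hnd⟩ := hfin.exists_eq_pow_mul_and_not_dvd
  have hq0 : q ≠ 0 := by rintro rfl; exact hnd (dvd_zero _)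
  have hne : Real.goldenRatio ≠ Real.goldenConj := by
    intro h
    have h1 := Real.goldenRatio_pos
    have h2 := Real.goldenConj_neg
    linarith
  have hinj : Function.Injective (algebraMap ℚ ℝ) := (algebraMap ℚ ℝ).injective
  have hq0' : q.map (algebraMap ℚ ℝ) ≠ 0 := (Polynomial.map_ne_zero_iff hinj).mpr hq0
  have hp0' : (pq.map (algebraMap ℚ ℝ)) ≠ 0 := (Polynomial.map_ne_zero_iff hinj).mpr pq_monic.ne_zero
  have key : ∀ α : ℝ, (pq.map (algebraMap ℚ ℝ)).eval α = 0 →
      (pq.map (algebraMap ℚ ℝ)).rootMultiplicity α = 1 →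
      (f.map (algebraMap ℚ ℝ)).rootMultiplicity α = multiplicity pq f := by
    intro α hα h1
    have hqα : (q.map (algebraMap ℚ ℝ)).rootMultiplicity α = 0 := by
      apply Polynomial.rootMultiplicity_eq_zero
      intro hroot
      apply hnd
      rw [minpoly_of_root hα]
      apply minpoly.dvd
      rw [Polynomial.IsRoot, Polynomial.eval_map_algebraMap] at hroot
      exact hroot
    conv_lhs => rw [hq]
    rw [Polynomial.map_mul, Polynomial.map_pow,
      Polynomial.rootMultiplicity_mul (mul_ne_zero (pow_ne_zero _ hp0') hq0'), hqα,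
      ← Polynomial.count_roots, Polynomial.roots_pow, Multiset.count_nsmul,
      Polynomial.count_roots, h1]
    simp
  have hprod : (X - C Real.goldenRatio) * (X - C Real.goldenConj) ≠ (0 : ℝ[X]) :=
    mul_ne_zero (X_sub_C_ne_zero _) (X_sub_C_ne_zero _)
  rw [key Real.goldenRatio, key Real.goldenConj]
  · rw [pq_map]; simp
  · rw [pq_map, Polynomial.rootMultiplicity_mul hprod, Polynomial.rootMultiplicity_X_sub_C,
      Polynomial.rootMultiplicity_X_sub_C, if_neg hne.symm, if_pos rfl]
  · rw [pq_map]; simp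
  · rw [pq_map, Polynomial.rootMultiplicity_mul hprod, Polynomial.rootMultiplicity_X_sub_C,
      Polynomial.rootMultiplicity_X_sub_C, if_neg hne, if_pos rfl]

end rootmult

section main
variable {V : Type} [Fintype V] [DecidableEq V]

/-- For a symmetric matrix, `(tr Q)^2 ≤ rank Q * |Q|_F^2`. -/
lemma trace_sq_le {Q : Matrix V V ℝ} (hQ : Q.IsHermitian) :
    Q.trace ^ 2 ≤ Q.rank * (Q ^ 2).trace := by
  have h1 := Spec.trace_pow hQ 1
  have h2 := Spec.trace_pow hQ 2
  rw [pow_one] at h1
  simp only [pow_one] at h1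
  rw [h1, h2, hQ.rank_eq_card_non_zero_eigs, Fintype.card_subtype]
  have h3 : ∑ i, hQ.eigenvalues i = ∑ i ∈ univ.filter (fun i => hQ.eigenvalues i ≠ 0), hQ.eigenvalues i := by
    rw [Finset.sum_filter_ne_zero]
  have h4 : ∑ i ∈ univ.filter (fun i => hQ.eigenvalues i ≠ 0), hQ.eigenvalues i ^ 2
      ≤ ∑ i, hQ.eigenvalues i ^ 2 :=
    Finset.sum_le_sum_of_subset_of_nonneg (filter_subset _ _) fun _ _ _ => sq_nonneg _
  rw [h3]
  refine (sq_sum_le_card_mul_sum_sq).trans ?_
  exact mul_le_mul_of_nonneg_left h4 (Nat.cast_nonneg _)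

lemma main_ineq (A : Matrix V V ℝ) (hA : A.IsHermitian) (h01 : ∀ i j, A i j = 0 ∨ A i j = 1)
    (hd : ∀ i, A i i = 0) (a : ℕ)
    (ha : (univ.filter (fun i => hA.eigenvalues i = Real.goldenRatio)).card = a)
    (hb : (univ.filter (fun i => hA.eigenvalues i = Real.goldenConj)).card = a) :
    ∃ r : ℕ, 2 * a + r = Fintype.card V ∧ (a : ℝ) ≤ 21 * ((r : ℝ) ^ 2 + r) := by
  classical
  set g := Real.goldenRatio with hg
  set g' := Real.goldenConj with hg'
  have hgg : g + g' = 1 := Real.goldenRatio_add_goldenConj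
  have hgp : g * g' = -1 := Real.goldenRatio_mul_goldenConj
  have hg0 : 1 < g := Real.one_lt_goldenRatio
  have hne : g ≠ g' := by intro h; linarith
  have hg2 : g ^ 2 = g + 1 := Real.goldenRatio_sq
  obtain ⟨U, h1, h2, h3⟩ := Spec.spec hA
  set lam := hA.eigenvalues with hlam
  let K := {i : V // lam i ≠ g ∧ lam i ≠ g'}
  let s : V → ℝ := fun i => if lam i = g ∨ lam i = g' then lam i else 0
  let l : V → ℝ := fun i => if lam i = g ∨ lam i = g' then 0 else lam i
  have hsl : ∀ i, lam i = s i + l i := fun i => by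
    simp only [s, l]; split_ifs <;> ring
  set S : Matrix V V ℝ := U * diagonal s * Uᵀ with hS
  set L : Matrix V V ℝ := U * diagonal l * Uᵀ with hL
  have hASL : A = S + L := by
    conv_lhs => rw [h3]
    rw [hS, hL, ← Matrix.add_mul, ← Matrix.mul_add, Matrix.diagonal_add]
    congr 3
    funext i
    exact hsl i
  have hcard : 2 * a + Fintype.card K = Fintype.card V := by
    have e1 : Fintype.card K = (univ.filter (fun i => lam i ≠ g ∧ lam i ≠ g')).card :=
      Fintype.card_subtype _
    have e2 : (univ.filter (fun i => lam i = g ∨ lam i = g')).card = 2 * a := by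
      rw [Finset.filter_or, Finset.card_union_of_disjoint, ha, hb]
      · ring
      · rw [Finset.disjoint_filter]
        intro i _ h h'
        exact hne (h.symm.trans h')
    have e3 := Finset.card_filter_add_card_filter_not (s := (univ : Finset V))
      (fun i => lam i = g ∨ lam i = g')
    rw [e2, Finset.card_univ] at e3
    rw [e1, ← e3]
    congr 2
    ext i
    simp [not_or]
  refine ⟨Fintype.card K, hcard, ?_⟩
  set r : ℕ := Fintype.card K with hr
  -- sums over the golden part
  have hsum : ∀ F : ℝ → ℝ, F 0 = 0 → ∑ i, F (s i) = a * F g + a * F g' := by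
    intro F hF
    have e : ∀ i, F (s i) = (if lam i = g then F g else 0) + (if lam i = g' then F g' else 0) := by
      intro i
      simp only [s]
      by_cases c1 : lam i = g
      · have c2 : ¬ g = g' := hne
        simp [c1, c2]
      · by_cases c2 : lam i = g'
        · have c3 : ¬ g' = g := fun h => hne h.symm
          simp [c2, c3]
        · simp [c1, c2, hF]
    simp_rw [e]
    rw [Finset.sum_add_distrib, ← Finset.sum_filter, ← Finset.sum_filter, Finset.sum_const,
      Finset.sum_const, ha, hb]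
    simp
  have htrS : S.trace = a := by
    have e1 : S.trace = ∑ i, s i := by
      rw [hS, Matrix.trace_mul_comm, ← Matrix.mul_assoc, h1, Matrix.one_mul, Matrix.trace_diagonal]
    have e2 := hsum id rfl
    simp only [id] at e2
    rw [e1, e2, ← mul_add, hgg, mul_one]
  have hSsymm : ∀ i j, S i j = S j i := by
    intro i j
    have : Sᵀ = S := by
      rw [hS, Matrix.transpose_mul, Matrix.transpose_mul, Matrix.transpose_transpose,
        Matrix.diagonal_transpose, Matrix.mul_assoc]
    conv_lhs => rw [← this]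
    rfl
  have hLsymm : ∀ i j, L i j = L j i := by
    intro i j
    have : Lᵀ = L := by
      rw [hL, Matrix.transpose_mul, Matrix.transpose_mul, Matrix.transpose_transpose,
        Matrix.diagonal_transpose, Matrix.mul_assoc]
    conv_lhs => rw [← this]
    rfl
  have hFS : ∑ i, ∑ j, S i j ^ 2 = 3 * a := by
    have e1 : ∑ i, ∑ j, S i j ^ 2 = (S * S).trace := by
      rw [Matrix.trace]
      refine Finset.sum_congr rfl fun i _ => ?_
      rw [Matrix.diag_apply, Matrix.mul_apply]
      refine Finset.sum_congr rfl fun j _ => ?_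
      rw [hSsymm j i]; ring
    have e2 : (S * S).trace = ∑ i, s i ^ 2 := by
      have : S * S = U * (diagonal s * diagonal s) * Uᵀ := by
        rw [hS]
        calc U * diagonal s * Uᵀ * (U * diagonal s * Uᵀ)
            = U * diagonal s * (Uᵀ * U) * diagonal s * Uᵀ := by simp only [Matrix.mul_assoc]
          _ = _ := by rw [h1, Matrix.mul_one]; simp only [Matrix.mul_assoc]
      rw [this, Matrix.trace_mul_comm, ← Matrix.mul_assoc, h1, Matrix.one_mul,
        Matrix.diagonal_mul_diagonal, Matrix.trace_diagonal]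
      exact Finset.sum_congr rfl fun i _ => by ring
    have e3 := hsum (fun x => x ^ 2) (by norm_num)
    rw [e1, e2, e3]
    have : g' ^ 2 = g' + 1 := Real.goldenConj_sq
    rw [hg2, this]
    linear_combination (a : ℝ) * hgg
  -- entries of `S` are at most `g` in absolute value
  have hSle : ∀ i j, |S i j| ≤ g := by
    intro i j
    have e1 : S i j = ∑ k, U i k * s k * U j k := by
      rw [hS, Matrix.mul_apply]
      refine Finset.sum_congr rfl fun k _ => ?_
      rw [Matrix.mul_diagonal, Matrix.transpose_apply]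
    have hsk : ∀ k, |s k| ≤ g := by
      intro k
      simp only [s]
      split_ifs with h
      · rcases h with h | h
        · rw [h, abs_of_pos (by linarith)]
        · rw [h, abs_le]
          constructor <;> nlinarith
      · rw [abs_zero]; linarith
    have hrow : ∀ i, ∑ k, U i k ^ 2 = 1 := by
      intro i
      have := congrFun (congrFun h2 i) i
      rw [Matrix.mul_apply, Matrix.one_apply_eq] at this
      rw [← this]
      exact Finset.sum_congr rfl fun k _ => by rw [Matrix.transpose_apply]; ring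
    rw [e1]
    calc |∑ k, U i k * s k * U j k| ≤ ∑ k, |U i k * s k * U j k| := Finset.abs_sum_le_sum_abs _ _
      _ ≤ ∑ k, g * (1 / 2 * (U i k ^ 2 + U j k ^ 2)) := by
          refine Finset.sum_le_sum fun k _ => ?_
          rw [abs_mul, abs_mul]
          have a1 : |U i k| * |U j k| ≤ 1 / 2 * (U i k ^ 2 + U j k ^ 2) := by
            rw [← sq_abs (U i k), ← sq_abs (U j k)]
            nlinarith [sq_nonneg (|U i k| - |U j k|)]
          have a2 := hsk k
          have a3 : 0 ≤ |U i k| * |U j k| := by positivity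
          calc |U i k| * |s k| * |U j k| = |s k| * (|U i k| * |U j k|) := by ring
            _ ≤ g * (|U i k| * |U j k|) := mul_le_mul_of_nonneg_right a2 a3
            _ ≤ _ := mul_le_mul_of_nonneg_left a1 (by linarith)
      _ = g := by
          rw [← Finset.mul_sum, ← Finset.mul_sum, Finset.sum_add_distrib, hrow, hrow]
          ring
  -- the matrix `Q`
  obtain ⟨Q, hQ⟩ : ∃ Q : Matrix V V ℝ, ∀ i j, Q i j = L i j ^ 2 - L i j :=
    ⟨Matrix.of fun i j => L i j ^ 2 - L i j, fun i j => rfl⟩
  have hQherm : Q.IsHermitian := by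
    rw [Matrix.IsHermitian, Matrix.conjTranspose_eq_transpose_of_trivial]
    ext i j
    rw [Matrix.transpose_apply, hQ, hQ, hLsymm]
  have hLe : ∀ i j, L i j = A i j - S i j := fun i j => by
    rw [hASL, Matrix.add_apply]; ring
  have htrQ : (a : ℝ) ≤ Q.trace := by
    rw [← htrS, Matrix.trace, Matrix.trace]
    refine Finset.sum_le_sum fun i _ => ?_
    rw [Matrix.diag_apply, Matrix.diag_apply, hQ, hLe, hd]
    nlinarith [sq_nonneg (S i i)]
  have hFQ : (Q ^ 2).trace ≤ (1 + g) ^ 2 * (3 * a) := by
    have e1 : (Q ^ 2).trace = ∑ i, ∑ j, Q i j ^ 2 := by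
      rw [pow_two, Matrix.trace]
      refine Finset.sum_congr rfl fun i _ => ?_
      rw [Matrix.diag_apply, Matrix.mul_apply]
      refine Finset.sum_congr rfl fun j _ => ?_
      rw [hQ, hQ, hLsymm j i]; ring
    rw [e1, ← hFS, Finset.mul_sum]
    refine Finset.sum_le_sum fun i _ => ?_
    rw [Finset.mul_sum]
    refine Finset.sum_le_sum fun j _ => ?_
    have hs1 := abs_le.mp (hSle i j)
    have e2 : Q i j ^ 2 = S i j ^ 2 * (1 + S i j) ^ 2 ∨ Q i j ^ 2 = S i j ^ 2 * (1 - S i j) ^ 2 := by
      rcases h01 i j with h | h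
      · left; rw [hQ, hLe, h]; ring
      · right; rw [hQ, hLe, h]; ring
    have e3 : (1 + S i j) ^ 2 ≤ (1 + g) ^ 2 := by
      apply sq_le_sq'
      · linarith [hs1.1]
      · linarith [hs1.2]
    have e4 : (1 - S i j) ^ 2 ≤ (1 + g) ^ 2 := by
      apply sq_le_sq'
      · linarith [hs1.2]
      · linarith [hs1.1]
    rcases e2 with e | e
    · rw [e, mul_comm]
      exact mul_le_mul_of_nonneg_right e3 (sq_nonneg _)
    · rw [e, mul_comm]
      exact mul_le_mul_of_nonneg_right e4 (sq_nonneg _)
  have hrank : Q.rank ≤ r * r + r := by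
    let M : Matrix V ((K × K) ⊕ K) ℝ := Matrix.of fun i x => match x with
      | Sum.inl p => U i p.1 * U i p.2
      | Sum.inr k => U i k
    let N : Matrix ((K × K) ⊕ K) V ℝ := Matrix.of fun x j => match x with
      | Sum.inl p => l p.1 * l p.2 * (U j p.1 * U j p.2)
      | Sum.inr k => - (l k * U j k)
    have hL1 : ∀ i j, L i j = ∑ k : K, U i k * l k * U j k := by
      intro i j
      have e1 : L i j = ∑ k, U i k * l k * U j k := by
        rw [hL, Matrix.mul_apply]
        refine Finset.sum_congr rfl fun k _ => ?_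
        rw [Matrix.mul_diagonal, Matrix.transpose_apply]
      rw [e1]
      have e2 : ∑ k : K, U i k * l k * U j k
          = ∑ k ∈ univ.filter (fun k => lam k ≠ g ∧ lam k ≠ g'), U i k * l k * U j k := by
        rw [← Finset.sum_subtype_of_mem (f := fun k => U i k * l k * U j k)
          (s := univ.filter (fun k => lam k ≠ g ∧ lam k ≠ g')) (p := fun k => lam k ≠ g ∧ lam k ≠ g')]
        · apply Finset.sum_congr _ fun _ _ => rfl
          ext k
          exact ⟨fun _ => Finset.mem_subtype.mpr (mem_filter.mpr ⟨mem_univ _, k.2⟩),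
            fun _ => mem_univ _⟩
        · intro k hk
          exact (mem_filter.mp hk).2
      rw [e2, Finset.sum_filter]
      refine Finset.sum_congr rfl fun k _ => ?_
      split_ifs with h
      · rfl
      · have : l k = 0 := by
          simp only [l]
          rw [if_pos]
          by_contra hcon
          push Not at hcon
          exact h hcon
        rw [this]; ring
    have hQMN : Q = M * N := by
      ext i j
      rw [Matrix.mul_apply, Fintype.sum_sum_type, Fintype.sum_prod_type, hQ]
      have e1 : L i j ^ 2 = ∑ k : K, ∑ k' : K, M i (Sum.inl (k, k')) * N (Sum.inl (k, k')) j := by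
        rw [sq, hL1, Finset.sum_mul_sum]
        refine Finset.sum_congr rfl fun k _ => Finset.sum_congr rfl fun k' _ => ?_
        simp only [M, N, Matrix.of_apply]
        ring
      have e2 : - L i j = ∑ k : K, M i (Sum.inr k) * N (Sum.inr k) j := by
        rw [hL1, ← Finset.sum_neg_distrib]
        refine Finset.sum_congr rfl fun k _ => ?_
        simp only [M, N, Matrix.of_apply]
        ring
      rw [← e1, ← e2]
      ring
    rw [hQMN]
    refine (Matrix.rank_mul_le_left _ _).trans ((Matrix.rank_le_card_width _).trans ?_)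
    rw [Fintype.card_sum, Fintype.card_prod]
  -- conclusion
  have hfin := trace_sq_le hQherm
  have ha0 : (0 : ℝ) ≤ a := Nat.cast_nonneg a
  have hrr : ((Q.rank : ℕ) : ℝ) ≤ (r : ℝ) ^ 2 + r := by
    have : ((Q.rank : ℕ) : ℝ) ≤ ((r * r + r : ℕ) : ℝ) := by exact_mod_cast hrank
    push_cast at this
    linarith
  have hg3 : g ≤ 1.625 := by nlinarith
  have hgg2 : (1 + g) ^ 2 ≤ 7 := by nlinarith
  have hchain : (a : ℝ) ^ 2 ≤ ((r : ℝ) ^ 2 + r) * (7 * (3 * a)) := by
    calc (a : ℝ) ^ 2 ≤ Q.trace ^ 2 := pow_le_pow_left₀ ha0 htrQ 2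
      _ ≤ Q.rank * (Q ^ 2).trace := hfin
      _ ≤ Q.rank * ((1 + g) ^ 2 * (3 * a)) := mul_le_mul_of_nonneg_left hFQ (Nat.cast_nonneg _)
      _ ≤ Q.rank * (7 * (3 * a)) := mul_le_mul_of_nonneg_left
          (mul_le_mul_of_nonneg_right hgg2 (by positivity)) (Nat.cast_nonneg _)
      _ ≤ _ := mul_le_mul_of_nonneg_right hrr (by positivity)
  by_cases ha1 : a = 0
  · rw [ha1, Nat.cast_zero]
    positivity
  · have ha2 : (0 : ℝ) < a := by exact_mod_cast Nat.pos_of_ne_zero ha1
    have : (a : ℝ) * a ≤ a * (21 * ((r : ℝ) ^ 2 + r)) := by nlinarith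
    exact le_of_mul_le_mul_left this ha2

end main

lemma rootMult_card {n : ℕ} (A : Matrix (Fin n) (Fin n) ℝ) (hA : A.IsHermitian) (t : ℝ) :
    A.charpoly.rootMultiplicity t = (univ.filter (fun i => hA.eigenvalues i = t)).card := by
  classical
  rw [← Polynomial.count_roots, hA.roots_charpoly_eq_eigenvalues, Multiset.count_map,
    Finset.card_def, Finset.filter_val]
  congr 1
  apply Multiset.filter_congr
  intro i _
  simp [eq_comm]

lemma mult_le {n : ℕ} (G : SimpleGraph (Fin n)) :
    (mult G Real.goldenRatio : ℝ) ≤ (n : ℝ) / 2 - 1 / 20 * √n := by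
  classical
  have hA : (G.adjMatrix ℝ).IsHermitian := by
    rw [Matrix.IsHermitian, Matrix.conjTranspose_eq_transpose_of_trivial]
    exact G.isSymm_adjMatrix
  -- multiplicity bound
  have h1 : mult G Real.goldenRatio
      ≤ (univ.filter (fun i => hA.eigenvalues i = Real.goldenRatio)).card := by
    have e1 := LinearMap.finrank_eigenspace_le (Matrix.toLin' (G.adjMatrix ℝ)) Real.goldenRatio
    rw [Matrix.charpoly_toLin', rootMult_card _ hA] at e1
    refine le_trans (le_of_eq ?_) e1
    have e2 : Matrix.toLin' (G.adjMatrix ℝ - Real.goldenRatio • 1)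
        = Matrix.toLin' (G.adjMatrix ℝ) - Real.goldenRatio • (1 : Module.End ℝ (Fin n → ℝ)) := by
      rw [map_sub, map_smul, Matrix.toLin'_one]
      rfl
    unfold mult
    rw [Module.End.eigenspace_def, ← e2]
  -- equality of the multiplicities of the conjugates
  have hmap : (G.adjMatrix ℚ).map (algebraMap ℚ ℝ) = G.adjMatrix ℝ := by
    ext i j
    rw [Matrix.map_apply, SimpleGraph.adjMatrix_apply, SimpleGraph.adjMatrix_apply]
    split_ifs <;> simp
  have hcp : (G.adjMatrix ℝ).charpoly = (G.adjMatrix ℚ).charpoly.map (algebraMap ℚ ℝ) := by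
    rw [← hmap, Matrix.charpoly_map]
  have h2 := rootMult_eq (G.adjMatrix ℚ).charpoly (Matrix.charpoly_monic _).ne_zero
  rw [← hcp, rootMult_card _ hA, rootMult_card _ hA] at h2
  obtain ⟨r, hr1, hr2⟩ := main_ineq (G.adjMatrix ℝ) hA (fun i j => by
    rw [SimpleGraph.adjMatrix_apply]; split_ifs <;> simp) (fun i => by simp)
    (univ.filter (fun i => hA.eigenvalues i = Real.goldenRatio)).card rfl h2.symm
  set a := (univ.filter (fun i => hA.eigenvalues i = Real.goldenRatio)).card with ha
  rw [Fintype.card_fin] at hr1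
  have hn : (n : ℝ) = 2 * a + r := by
    rw [← hr1]; push_cast; ring
  have h3 : √(n : ℝ) ≤ 10 * r := by
    apply Real.sqrt_le_iff.mpr
    refine ⟨by positivity, ?_⟩
    by_cases hr0 : r = 0
    · rw [hr0] at hr2 hn ⊢
      have : (a : ℝ) ≤ 0 := by simpa using hr2
      rw [hn]
      push_cast
      nlinarith
    · have : (1 : ℝ) ≤ r := by exact_mod_cast Nat.one_le_iff_ne_zero.mpr hr0
      rw [hn]
      nlinarith
  have h4 : (mult G Real.goldenRatio : ℝ) ≤ a := by exact_mod_cast h1
  linarith

/-- The golden ratio is an eigenvalue of the path on four vertices. -/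
lemma mult_path : 1 ≤ mult (SimpleGraph.pathGraph 4) Real.goldenRatio := by
  classical
  unfold mult
  rw [Nat.one_le_iff_ne_zero]
  intro h
  have hbot := Submodule.finrank_eq_zero.mp h
  have hv : (![1, Real.goldenRatio, Real.goldenRatio, 1] : Fin 4 → ℝ) ∈
      LinearMap.ker (Matrix.toLin' ((SimpleGraph.pathGraph 4).adjMatrix ℝ
        - Real.goldenRatio • 1)) := by
    rw [LinearMap.mem_ker, Matrix.toLin'_apply, Matrix.sub_mulVec, Matrix.smul_mulVec,
      Matrix.one_mulVec]
    have hg := Real.goldenRatio_sq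
    funext i
    fin_cases i <;>
      simp [Matrix.mulVec, dotProduct, Fin.sum_univ_four, SimpleGraph.adjMatrix_apply,
        SimpleGraph.pathGraph_adj] <;> nlinarith
  rw [hbot, Submodule.mem_bot] at hv
  have := congrFun hv 0
  simp at this

/-- **Answer to Q1.**  For the golden ratio `t` (an algebraic integer of degree `2`, an
eigenvalue of the path on four vertices) one has `E_s(n, t) ≤ n / 2 - √n / 20` for all `n`. -/
theorem result : ∃ (t : ℝ) (d : ℕ), IsIntegral ℤ t ∧ d = (minpoly ℤ t).natDegree ∧ 2 ≤ d ∧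
    (∃ (k : ℕ) (G : SimpleGraph (Fin k)), 1 ≤ mult G t) ∧
    ∃ c : ℝ, 0 < c ∧ ∃ n₀ : ℕ, ∀ n ≥ n₀, (Es n t : ℝ) ≤ (n : ℝ) / d - c * √n := by
  have hint : IsIntegral ℤ Real.goldenRatio := by
    refine ⟨X ^ 2 - X - 1, by monicity!, ?_⟩
    rw [← Polynomial.aeval_def]
    simp [Real.goldenRatio_sq]
  have hroot : (pq.map (algebraMap ℚ ℝ)).eval Real.goldenRatio = 0 := by
    rw [pq_map]; simp
  have hdeg : (minpoly ℤ Real.goldenRatio).natDegree = 2 := by
    have h1 := minpoly.isIntegrallyClosed_eq_field_fractions' ℚ hint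
    have h2 : (minpoly ℚ Real.goldenRatio).natDegree = 2 := by
      rw [← minpoly_of_root hroot, pq_natDegree]
    rw [h1, Polynomial.natDegree_map_eq_of_injective (algebraMap ℤ ℚ).injective_int] at h2
    exact h2
  refine ⟨Real.goldenRatio, 2, hint, hdeg.symm, le_rfl, ⟨4, _, mult_path⟩, 1 / 20, by norm_num, 0, ?_⟩
  intro n _
  have hne : {m : ℕ | ∃ G : SimpleGraph (Fin n), mult G Real.goldenRatio = m}.Nonempty :=
    ⟨_, ⊥, rfl⟩
  have hbdd : BddAbove {m : ℕ | ∃ G : SimpleGraph (Fin n), mult G Real.goldenRatio = m} := by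
    refine ⟨n, ?_⟩
    rintro m ⟨G, rfl⟩
    have h := mult_le G
    have h0 := Real.sqrt_nonneg (n : ℝ)
    have hn : (0 : ℝ) ≤ n := Nat.cast_nonneg n
    have : (mult G Real.goldenRatio : ℝ) ≤ n := by linarith
    exact_mod_cast this
  obtain ⟨G, hG⟩ := Nat.sSup_mem hne hbdd
  have h := mult_le G
  rw [hG] at h
  exact_mod_cast h

end Pool.Agent.Results.MP_4bb7d7_co.GoldenMultiplicity
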